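import Pool.Agent.Y106.TB.Tube

/-!
# The tubes are affinely inequivalent
-/

set_option autoImplicit false

namespace Pool.Agent.Y106.TB

variable {k m k' m' : ℕ} {ε ε' : ℝ}

theorem gx_smul (c : ℝ) (z : EuclideanSpace ℝ (Fin (k + m))) : gx (c • z) = c ^ 2 * gx z := by
  unfold gx
  rw [Finset.mul_sum]
  refine Finset.sum_congr rfl fun i _ => ?_
  simp only [PiLp.smul_apply, smul_eq_mul]
  ring

theorem gy_smul (c : ℝ) (z : EuclideanSpace ℝ (Fin (k + m))) : gy (c • z) = c ^ 2 * gy z := by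
  unfold gy
  rw [Finset.mul_sum]
  refine Finset.sum_congr rfl fun i _ => ?_
  simp only [PiLp.smul_apply, smul_eq_mul]
  ring

theorem neg_mem {z : EuclideanSpace ℝ (Fin (k + m))} (hz : z ∈ Tube k m ε) : -z ∈ Tube k m ε := by
  have h1 : gx (-z) = gx z := by
    have := gx_smul (-1) z
    simpa using this
  have h2 : gy (-z) = gy z := by
    have := gy_smul (-1) z
    simpa using this
  simp only [Tube, Set.mem_ofPred_eq] at *
  rw [h1, h2]
  exact hz

/-- An affine map between two tubes fixes the origin. -/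
theorem map_zero' [NeZero k] (h0 : 0 < ε) (h0' : 0 < ε')
    (g : EuclideanSpace ℝ (Fin (k + m)) ≃ᵃ[ℝ] EuclideanSpace ℝ (Fin (k' + m')))
    (hg : ∀ z, z ∈ Tube k m ε ↔ g z ∈ Tube k' m' ε') : g 0 = 0 := by
  set c := g 0 with hc
  have hL : ∀ z, g z = g.linear z + c := by
    intro z
    have := g.map_vadd 0 z
    simpa using this
  have hstep : ∀ w ∈ Tube k' m' ε', w + (2 : ℝ) • c ∈ Tube k' m' ε' := by
    intro w hw
    have h1 : -w ∈ Tube k' m' ε' := neg_mem hw
    have h2 : g.symm (-w) ∈ Tube k m ε := by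
      rw [hg, g.apply_symm_apply]
      exact h1
    have h3 := (hg _).1 (neg_mem h2)
    have h4 : g (-(g.symm (-w))) = w + (2 : ℝ) • c := by
      have h5 := hL (g.symm (-w))
      rw [g.apply_symm_apply] at h5
      rw [hL, map_neg]
      have h6 : g.linear (g.symm (-w)) = -w - c := eq_sub_of_add_eq h5.symm
      rw [h6, two_smul]
      abel
    rwa [h4] at h3
  have hw0 : g (pt 1) ∈ Tube k' m' ε' := by
    rw [← hg]
    simp only [Tube, Set.mem_ofPred_eq, gx_pt, gy_pt]
    norm_num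
    positivity
  have hn : ∀ n : ℕ, g (pt 1) + ((n : ℝ) * 2) • c ∈ Tube k' m' ε' := by
    intro n
    induction n with
    | zero => simpa using hw0
    | succ n ih =>
      have := hstep _ ih
      have e : g (pt 1) + ((n : ℝ) * 2) • c + (2 : ℝ) • c =
          g (pt 1) + (((n + 1 : ℕ) : ℝ) * 2) • c := by
        push_cast
        rw [add_assoc, ← add_smul]
        congr 2
        ring
      rwa [e] at this
  by_contra hne
  have hpos : 0 < ‖c‖ := norm_pos_iff.2 hne
  obtain ⟨n, hn'⟩ := exists_nat_gt ((1 + ε') / ‖c‖)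
  have h1 := norm_le_of_mem h0' (hn n)
  have h2 := norm_le_of_mem h0' hw0
  have h3 : ‖((n : ℝ) * 2) • c‖ ≤ ‖g (pt 1) + ((n : ℝ) * 2) • c‖ + ‖g (pt 1)‖ := by
    have e : ((n : ℝ) * 2) • c = (g (pt 1) + ((n : ℝ) * 2) • c) - g (pt 1) := by abel
    calc ‖((n : ℝ) * 2) • c‖ = ‖(g (pt 1) + ((n : ℝ) * 2) • c) - g (pt 1)‖ := by rw [← e]
      _ ≤ _ := norm_sub_le _ _
  rw [norm_smul, Real.norm_of_nonneg (by positivity)] at h3
  rw [div_lt_iff₀ hpos] at hn'
  nlinarith

/-- The estimate for the image of a unit vector of `ℝ^k`. -/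
theorem unit_bounds (h0 : 0 < ε) (h1 : ε < 1) (h0' : 0 < ε') (h1' : ε' < 1)
    (L : EuclideanSpace ℝ (Fin (k + m)) →ₗ[ℝ] EuclideanSpace ℝ (Fin (k' + m')))
    (hL : ∀ z ∈ Tube k m ε, L z ∈ Tube k' m' ε') {x : EuclideanSpace ℝ (Fin (k + m))}
    (hx : gx x = 1) (hy : gy x = 0) :
    (1 + ε) * ‖L x‖ ≤ 1 + ε' ∧ 1 - ε' ≤ (1 - ε) * ‖L x‖ ∧
      (1 - ε) • L x ∈ Tube k' m' ε' := by
  have hm1 : (1 - ε) • x ∈ Tube k m ε := by
    simp only [Tube, Set.mem_ofPred_eq, gx_smul, gy_smul, hx, hy]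
    rw [mul_one, mul_zero, Real.sqrt_sq (by linarith)]
    nlinarith
  have hm2 : (1 + ε) • x ∈ Tube k m ε := by
    simp only [Tube, Set.mem_ofPred_eq, gx_smul, gy_smul, hx, hy]
    rw [mul_one, mul_zero, Real.sqrt_sq (by linarith)]
    nlinarith
  have e1 := hL _ hm1
  have e2 := hL _ hm2
  rw [map_smul] at e1 e2
  have f1 := (le_norm_of_mem h0' h1' e1).2
  have f2 := norm_le_of_mem h0' e2
  rw [norm_smul, Real.norm_of_nonneg (by linarith)] at f1 f2
  exact ⟨f2, f1, e1⟩

theorem eps_le [NeZero k] (h0 : 0 < ε) (h1 : ε < 1) (h0' : 0 < ε') (h1' : ε' < 1)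
    (L : EuclideanSpace ℝ (Fin (k + m)) →ₗ[ℝ] EuclideanSpace ℝ (Fin (k' + m')))
    (hL : ∀ z ∈ Tube k m ε, L z ∈ Tube k' m' ε') : ε ≤ ε' := by
  obtain ⟨a, b, -⟩ := unit_bounds h0 h1 h0' h1' L hL (x := pt 1)
    (by rw [gx_pt]; norm_num) (gy_pt _)
  have h2 : 0 ≤ ‖L (pt 1)‖ := norm_nonneg _
  nlinarith

theorem eq_zero_of {z : EuclideanSpace ℝ (Fin (k + m))} (hx : gx z = 0) (hy : gy z = 0) : z = 0 := by
  have := norm_sq_eq' z
  rw [hx, hy, add_zero] at this
  exact norm_eq_zero.1 (pow_eq_zero_iff (two_ne_zero) |>.1 this)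

theorem gy_map (h0 : 0 < ε) (h1 : ε < 1)
    (L : EuclideanSpace ℝ (Fin (k + m)) →ₗ[ℝ] EuclideanSpace ℝ (Fin (k' + m')))
    (hL : ∀ z ∈ Tube k m ε, L z ∈ Tube k' m' ε) {x : EuclideanSpace ℝ (Fin (k + m))}
    (hy : gy x = 0) : gy (L x) = 0 := by
  have key : ∀ u : EuclideanSpace ℝ (Fin (k + m)), gx u = 1 → gy u = 0 → gy (L u) = 0 := by
    intro u hu hu'
    obtain ⟨a, b, c⟩ := unit_bounds h0 h1 h0 h1 L hL hu hu'
    have h2 : ‖L u‖ ≤ 1 := by
      by_contra h
      push Not at h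
      nlinarith
    have h3 := (le_norm_of_mem h0 h1 c).1
    have h4 := norm_sq_eq' (L u)
    rw [gx_smul, Real.sqrt_mul (sq_nonneg _), Real.sqrt_sq (by linarith)] at h3
    have h5 : 1 ≤ √(gx (L u)) := by
      by_contra h
      push Not at h
      nlinarith
    have h6 : gx (L u) = √(gx (L u)) ^ 2 := (Real.sq_sqrt (gx_nonneg _)).symm
    have h7 := gy_nonneg (L u)
    have h8 : ‖L u‖ ^ 2 ≤ 1 := by
      have := norm_nonneg (L u)
      nlinarith
    nlinarith
  rcases eq_or_lt_of_le (gx_nonneg x) with h | h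
  · rw [eq_zero_of h.symm hy, map_zero]
    simp [gy]
  · have hs : 0 < √(gx x) := Real.sqrt_pos.2 h
    have h2 := key ((√(gx x))⁻¹ • x) (by
      rw [gx_smul, inv_pow, Real.sq_sqrt h.le, inv_mul_cancel₀ h.ne']) (by rw [gy_smul, hy, mul_zero])
    rw [map_smul, gy_smul] at h2
    rcases mul_eq_zero.1 h2 with h3 | h3
    · exact absurd h3 (by positivity)
    · exact h3

/-- the inclusion of the first factor -/
noncomputable def inc (k m : ℕ) : (Fin k → ℝ) →ₗ[ℝ] EuclideanSpace ℝ (Fin (k + m)) where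
  toFun x := WithLp.toLp 2 (fun i => Fin.addCases (motive := fun _ => ℝ) x (fun _ => 0) i)
  map_add' x y := by
    ext i
    refine Fin.addCases (fun a => ?_) (fun b => ?_) i <;> simp
  map_smul' c x := by
    ext i
    refine Fin.addCases (fun a => ?_) (fun b => ?_) i <;> simp

/-- the projection to the first factor -/
noncomputable def prj (k m : ℕ) : EuclideanSpace ℝ (Fin (k + m)) →ₗ[ℝ] (Fin k → ℝ) where
  toFun z := fun i => z (Fin.castAdd m i)
  map_add' x y := by
    ext i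
    simp
  map_smul' c x := by
    ext i
    simp

theorem dim_le (h0 : 0 < ε) (h1 : ε < 1)
    (L : EuclideanSpace ℝ (Fin (k + m)) →ₗ[ℝ] EuclideanSpace ℝ (Fin (k' + m')))
    (hinj : Function.Injective L)
    (hL : ∀ z ∈ Tube k m ε, L z ∈ Tube k' m' ε) : k ≤ k' := by
  have hi : Function.Injective ((prj k' m').comp (L.comp (inc k m))) := by
    rw [injective_iff_map_eq_zero]
    intro x hx
    have h2 : gy (inc k m x) = 0 := by
      unfold gy inc
      apply Finset.sum_eq_zero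
      intro j _
      simp
    have h3 := gy_map h0 h1 L hL h2
    have h4 : gx (L (inc k m x)) = 0 := by
      unfold gx
      apply Finset.sum_eq_zero
      intro i _
      have := congrFun hx i
      have h5 : (L (inc k m x)) (Fin.castAdd m' i) = 0 := this
      rw [h5]
      norm_num
    have h5 := eq_zero_of h4 h3
    have h6 := hinj (h5.trans (map_zero L).symm)
    funext i
    have h7 := congrArg (fun z : EuclideanSpace ℝ (Fin (k + m)) => z (Fin.castAdd m i)) h6
    simpa [inc] using h7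
  have := LinearMap.finrank_le_finrank_of_injective hi
  simpa using this

/-- **Two tubes are affinely equivalent only if they are equal.** -/
theorem rigid (hk : 1 ≤ k) (hk' : 1 ≤ k') (h0 : 0 < ε) (h1 : ε < 1) (h0' : 0 < ε') (h1' : ε' < 1)
    (g : EuclideanSpace ℝ (Fin (k + m)) ≃ᵃ[ℝ] EuclideanSpace ℝ (Fin (k' + m')))
    (hg : g '' Tube k m ε = Tube k' m' ε') : k = k' ∧ m = m' ∧ ε = ε' := by
  have : NeZero k := ⟨by omega⟩
  have : NeZero k' := ⟨by omega⟩
  have hg1 : ∀ z, z ∈ Tube k m ε ↔ g z ∈ Tube k' m' ε' := by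
    intro z
    rw [← hg]
    exact (g.injective.mem_set_image).symm
  have hg2 : ∀ z, z ∈ Tube k' m' ε' ↔ g.symm z ∈ Tube k m ε := by
    intro z
    rw [hg1, g.apply_symm_apply]
  have hc := map_zero' h0 h0' g hg1
  have hc' := map_zero' h0' h0 g.symm hg2
  have hL : ∀ z, g.linear z = g z := by
    intro z
    have := g.map_vadd 0 z
    simpa [hc] using this.symm
  have hL' : ∀ z, g.symm.linear z = g.symm z := by
    intro z
    have := g.symm.map_vadd 0 z
    simpa [hc'] using this.symm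
  have a1 : ∀ z ∈ Tube k m ε, g.linear.toLinearMap z ∈ Tube k' m' ε' := by
    intro z hz
    have := (hg1 z).1 hz
    rw [← hL] at this
    exact this
  have a2 : ∀ z ∈ Tube k' m' ε', g.symm.linear.toLinearMap z ∈ Tube k m ε := by
    intro z hz
    have := (hg2 z).1 hz
    rw [← hL'] at this
    exact this
  have he : ε = ε' := le_antisymm (eps_le h0 h1 h0' h1' _ a1) (eps_le h0' h1' h0 h1 _ a2)
  subst he
  have hkk : k = k' := le_antisymm (dim_le h0 h1 _ g.linear.injective a1)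
    (dim_le h0 h1 _ g.symm.linear.injective a2)
  have hdim := g.linear.finrank_eq
  simp only [finrank_euclideanSpace_fin] at hdim
  exact ⟨hkk, by omega, rfl⟩

end Pool.Agent.Y106.TB
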