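import Pool.Agent.Y106.TB.Tube

/-!
# The tubes are algebraically integrable
-/

set_option autoImplicit false

namespace Pool.Agent.Y106.TB

open MeasureTheory
open Pool.Agent.Helper99.Tube (IsBody HasSmoothBoundary cutPlus cutMinus IsAlgebraicallyIntegrable
  IsEllipsoid cutMinus_eq cutPlus_scale eval_option scal eval_scal exists_eval_ne elim_eta)

/-- the variables -/
def vars (k m : ℕ) : Option ((Fin k ⊕ Fin m) ⊕ Fin 1) → Fin (k + m) ⊕ Fin 2
  | none => Sum.inr 1
  | some (Sum.inl i) => Sum.inl (finSumFinEquiv i)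
  | some (Sum.inr _) => Sum.inr 0

theorem vars_injective (k m : ℕ) : Function.Injective (vars k m) := by
  rintro (_ | (i | i)) (_ | (j | j)) h
  · rfl
  · simp [vars] at h
  · simp [vars] at h
  · simp [vars] at h
  · simp only [vars, Sum.inl.injEq] at h
    rw [finSumFinEquiv.injective h]
  · simp [vars] at h
  · simp [vars] at h
  · simp [vars] at h
  · rw [Subsingleton.elim i j]

theorem isAlgebraicallyIntegrable_Tube (l m' : ℕ) {ε : ℝ} (hε0 : 0 < ε) (hε1 : ε < 1) :
    IsAlgebraicallyIntegrable (Tube (2 * l + 1) (2 * m') ε) := by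
  obtain ⟨p, hp, hp'⟩ := Pool.Agent.Helper99.tube_algebraic l m' (ε := ε) hε0 hε1
  -- a polynomial relation for the plus cutoff function
  obtain ⟨F, hF, hF'⟩ : ∃ F : MvPolynomial (Fin (2 * l + 1 + 2 * m') ⊕ Fin 2) ℝ, F ≠ 0 ∧
      ∀ (ξ : EuclideanSpace ℝ (Fin (2 * l + 1 + 2 * m'))) (t : ℝ),
        MvPolynomial.eval (Sum.elim (fun i => ξ i) ![t, cutPlus (Tube (2 * l + 1) (2 * m') ε) ξ t]) F = 0 := by
    refine ⟨MvPolynomial.rename (vars (2 * l + 1) (2 * m')) ((MvPolynomial.optionEquivLeft ℝ _).symm p), ?_, ?_⟩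
    · intro h
      rw [← map_zero (MvPolynomial.rename (vars (2 * l + 1) (2 * m')))] at h
      have h1 := MvPolynomial.rename_injective _ (vars_injective (2 * l + 1) (2 * m')) h
      rw [map_eq_zero_iff _ (MvPolynomial.optionEquivLeft ℝ _).symm.injective] at h1
      exact hp h1
    · intro ξ t
      rw [MvPolynomial.eval_rename, eval_option, AlgEquiv.apply_symm_apply]
      have h := hp' (Sum.elim (Sum.elim (fun i => ξ (Fin.castAdd (2 * m') i))
        (fun j => ξ (Fin.natAdd (2 * l + 1) j))) ![t]) (Set.mem_univ _)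
      have hx : ∀ v : ℝ, (fun i => (Sum.elim (fun i => ξ i) ![t, v] ∘ vars (2 * l + 1) (2 * m')) (some i)) =
          Sum.elim (Sum.elim (fun i => ξ (Fin.castAdd (2 * m') i))
            (fun j => ξ (Fin.natAdd (2 * l + 1) j))) ![t] := by
        intro v
        funext i
        rcases i with ((i | i) | i)
        · rfl
        · rfl
        · have : i = 0 := Subsingleton.elim _ _
          subst this
          rfl
      rw [hx]
      have hV : (Sum.elim (fun i => ξ i) ![t, cutPlus (Tube (2 * l + 1) (2 * m') ε) ξ t] ∘ vars (2 * l + 1) (2 * m')) none =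
          cutPlus (Tube (2 * l + 1) (2 * m') ε) ξ t := rfl
      rw [hV, cutPlus_eq hε0]
      exact h
  have hG : scal (-1) F ≠ 0 := by
    obtain ⟨y, hy⟩ := exists_eval_ne hF
    intro h0
    have h1 := eval_scal (-1) F (fun i => -(y (Sum.inl i))) (-(y (Sum.inr 0))) (y (Sum.inr 1))
    rw [h0, map_zero] at h1
    apply hy
    rw [elim_eta y]
    simp only [neg_mul, one_mul, neg_neg] at h1
    exact h1.symm
  have hGvan : ∀ (ξ : EuclideanSpace ℝ (Fin (2 * l + 1 + 2 * m'))) (t : ℝ),
      MvPolynomial.eval (Sum.elim (fun i => ξ i) ![t, cutMinus (Tube (2 * l + 1) (2 * m') ε) ξ t])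
        (scal (-1) F) = 0 := by
    intro ξ t
    rw [eval_scal, cutMinus_eq]
    have := hF' (-ξ) (-t)
    simpa using this
  -- a point where the product does not vanish, with nonzero direction
  have hH : F * scal (-1) F * (∑ i : Fin (2 * l + 1 + 2 * m'), MvPolynomial.X (Sum.inl i) ^ 2) ≠ 0 := by
    refine mul_ne_zero (mul_ne_zero hF hG) ?_
    intro h
    have := congrArg (MvPolynomial.eval (fun _ => (1 : ℝ))) h
    simp at this
    norm_cast at this
    omega
  obtain ⟨y, hy⟩ := exists_eval_ne hH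
  rw [map_mul] at hy
  have hy1 : MvPolynomial.eval y (F * scal (-1) F) ≠ 0 := left_ne_zero_of_mul hy
  have hy2 : ∑ i : Fin (2 * l + 1 + 2 * m'), y (Sum.inl i) ^ 2 ≠ 0 := by
    have := right_ne_zero_of_mul hy
    simpa using this
  have hy3 : 0 < ∑ i : Fin (2 * l + 1 + 2 * m'), y (Sum.inl i) ^ 2 :=
    lt_of_le_of_ne (Finset.sum_nonneg fun _ _ => sq_nonneg _) (Ne.symm hy2)
  set c := √(∑ i : Fin (2 * l + 1 + 2 * m'), y (Sum.inl i) ^ 2) with hc
  have hc0 : 0 < c := Real.sqrt_pos.mpr hy3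
  refine ⟨scal c (F * scal (-1) F), ⟨WithLp.toLp 2 (fun i => y (Sum.inl i) / c),
    y (Sum.inr 0) / c, y (Sum.inr 1), ?_, ?_⟩, ?_⟩
  · rw [← sq_eq_sq₀ (norm_nonneg _) zero_le_one, EuclideanSpace.norm_sq_eq]
    simp only [Real.norm_eq_abs, sq_abs, div_pow]
    rw [← Finset.sum_div, hc, Real.sq_sqrt hy3.le, div_self hy2]
    norm_num
  · rw [eval_scal]
    rw [elim_eta y] at hy1
    have e1 : (fun i : Fin (2 * l + 1 + 2 * m') => c * (WithLp.toLp 2 (fun i => y (Sum.inl i) / c) :
        EuclideanSpace ℝ (Fin (2 * l + 1 + 2 * m'))) i) = fun i => y (Sum.inl i) := by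
      funext i
      simp only
      field_simp
    have e2 : c * (y (Sum.inr 0) / c) = y (Sum.inr 0) := by field_simp
    rw [e1, e2]
    exact hy1
  · intro ξ t _
    have e1 : (fun i => c * ξ i) = fun i => (c • ξ) i := by
      funext i
      simp
    constructor
    · rw [eval_scal, e1, map_mul, ← cutPlus_scale (Tube (2 * l + 1) (2 * m') ε) ξ t hc0, hF', zero_mul]
    · have e2 : cutMinus (Tube (2 * l + 1) (2 * m') ε) ξ t = cutMinus (Tube (2 * l + 1) (2 * m') ε) (c • ξ) (c * t) := by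
        rw [cutMinus_eq, cutMinus_eq, ← cutPlus_scale (Tube (2 * l + 1) (2 * m') ε) (-ξ) (-t) hc0]
        congr 1
        · rw [smul_neg]
        · ring
      rw [eval_scal, e1, map_mul, e2, hGvan, mul_zero]


end Pool.Agent.Y106.TB
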