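import Mathlib
import Pool.Agent.Helper99.TubeDefs

/-!
# Tubes about spheres: definitions
-/

set_option autoImplicit false

namespace Pool.Agent.Y106.TB

/-- `|x|²`, where `x` consists of the first `k` coordinates of `z`. -/
noncomputable def gx {k m : ℕ} (z : EuclideanSpace ℝ (Fin (k + m))) : ℝ :=
  ∑ i : Fin k, z (Fin.castAdd m i) ^ 2

/-- `|y|²`, where `y` consists of the last `m` coordinates of `z`. -/
noncomputable def gy {k m : ℕ} (z : EuclideanSpace ℝ (Fin (k + m))) : ℝ :=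
  ∑ j : Fin m, z (Fin.natAdd k j) ^ 2

/-- The tube of radius `ε` about the unit sphere of `ℝ^k` in `ℝ^(k+m) = ℝ^k × ℝ^m`: the set of all
`(x, y)` with `(|x| - 1)² + |y|² ≤ ε²`. -/
def Tube (k m : ℕ) (ε : ℝ) : Set (EuclideanSpace ℝ (Fin (k + m))) :=
  {z | (√(gx z) - 1) ^ 2 + gy z ≤ ε ^ 2}

end Pool.Agent.Y106.TB
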