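import Mathlib
import Pool.Agent.Helper99.Final
import Pool.Agent.Helper99.TubeProof
import Pool.Agent.Y106.TB.Defs

set_option autoImplicit false

namespace Pool.Agent.Y106.TB

open MeasureTheory
open Pool.Agent.Helper99.Tube (IsBody HasSmoothBoundary cutPlus cutMinus IsAlgebraicallyIntegrable
  IsEllipsoid)

section construction

variable {k m : ℕ} {ε : ℝ}

/-- defining function of the tube -/
noncomputable def ff (ε : ℝ) (z : EuclideanSpace ℝ (Fin (k + m))) : ℝ :=
  (√(gx z) - 1) ^ 2 + gy z - ε ^ 2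

theorem gx_nonneg (z : EuclideanSpace ℝ (Fin (k + m))) : 0 ≤ gx z :=
  Finset.sum_nonneg fun _ _ => sq_nonneg _

theorem gy_nonneg (z : EuclideanSpace ℝ (Fin (k + m))) : 0 ≤ gy z :=
  Finset.sum_nonneg fun _ _ => sq_nonneg _

theorem continuous_gx : Continuous (gx : EuclideanSpace ℝ (Fin (k + m)) → ℝ) := by
  unfold gx; fun_prop

theorem continuous_gy : Continuous (gy : EuclideanSpace ℝ (Fin (k + m)) → ℝ) := by
  unfold gy; fun_prop

theorem continuous_ff : Continuous (ff ε : EuclideanSpace ℝ (Fin (k + m)) → ℝ) := by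
  unfold ff
  have := continuous_gx (k := k) (m := m)
  have := continuous_gy (k := k) (m := m)
  fun_prop

theorem norm_sq_eq' (z : EuclideanSpace ℝ (Fin (k + m))) : ‖z‖ ^ 2 = gx z + gy z := by
  rw [EuclideanSpace.norm_sq_eq, Fin.sum_univ_add]
  simp [gx, gy]

theorem mem_Tube_iff {z : EuclideanSpace ℝ (Fin (k + m))} : z ∈ Tube k m ε ↔ ff ε z ≤ 0 := by
  simp only [Tube, ff, Set.mem_ofPred_eq]
  exact sub_nonpos.symm

theorem Tube_eq : Tube k m ε = {z | ff ε z ≤ 0} := by
  ext z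
  exact mem_Tube_iff

theorem norm_le_of_mem (h0 : 0 < ε) {z : EuclideanSpace ℝ (Fin (k + m))} (hz : z ∈ Tube k m ε) :
    ‖z‖ ≤ 1 + ε := by
  simp only [Tube, Set.mem_ofPred_eq] at hz
  have h1 := norm_sq_eq' z
  have h2 := gy_nonneg z
  have h5 : 0 ≤ √(gx z) := Real.sqrt_nonneg _
  have h3 : √(gx z) ≤ 1 + ε := by
    have := abs_le.1 (abs_le_of_sq_le_sq (show (√(gx z) - 1) ^ 2 ≤ ε ^ 2 by linarith) h0.le)
    linarith [this.2]
  have h4 : gx z = √(gx z) ^ 2 := (Real.sq_sqrt (gx_nonneg z)).symm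
  refine abs_le_of_sq_le_sq' ?_ (by linarith) |>.2
  rw [h1, h4]
  nlinarith

theorem le_norm_of_mem (h0 : 0 < ε) (h1 : ε < 1) {z : EuclideanSpace ℝ (Fin (k + m))}
    (hz : z ∈ Tube k m ε) : 1 - ε ≤ √(gx z) ∧ 1 - ε ≤ ‖z‖ := by
  simp only [Tube, Set.mem_ofPred_eq] at hz
  have h1' := norm_sq_eq' z
  have h2 := gy_nonneg z
  have h5 : 0 ≤ √(gx z) := Real.sqrt_nonneg _
  have h3 : 1 - ε ≤ √(gx z) := by
    have := abs_le.1 (abs_le_of_sq_le_sq (show (√(gx z) - 1) ^ 2 ≤ ε ^ 2 by linarith) h0.le)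
    linarith [this.1]
  have h4 : gx z = √(gx z) ^ 2 := (Real.sq_sqrt (gx_nonneg z)).symm
  refine ⟨h3, h3.trans ?_⟩
  refine abs_le_of_sq_le_sq' ?_ (norm_nonneg z) |>.2
  rw [h1', ← h4]
  linarith

theorem isCompact_Tube (h0 : 0 < ε) : IsCompact (Tube k m ε) := by
  apply Metric.isCompact_of_isClosed_isBounded
  · rw [Tube_eq]
    exact isClosed_le continuous_ff continuous_const
  · refine (Metric.isBounded_closedBall (x := (0 : EuclideanSpace ℝ (Fin (k + m))))
      (r := 1 + ε)).subset ?_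
    intro z hz
    rw [mem_closedBall_zero_iff]
    exact norm_le_of_mem h0 hz

/-- the point `(e_1, 0)` -/
noncomputable def pt [NeZero k] (s : ℝ) : EuclideanSpace ℝ (Fin (k + m)) :=
  WithLp.toLp 2 (fun i => if i = Fin.castAdd m 0 then s else 0)

theorem gx_pt [NeZero k] (s : ℝ) : gx (pt s : EuclideanSpace ℝ (Fin (k + m))) = s ^ 2 := by
  have h : ∀ i : Fin k, (pt s : EuclideanSpace ℝ (Fin (k + m))) (Fin.castAdd m i) =
      if i = 0 then s else 0 := by
    intro i
    simp [pt]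
  unfold gx
  simp [h]

theorem gy_pt [NeZero k] (s : ℝ) : gy (pt s : EuclideanSpace ℝ (Fin (k + m))) = 0 := by
  unfold gy pt
  apply Finset.sum_eq_zero
  intro j _
  have : Fin.natAdd k j ≠ Fin.castAdd m 0 := by
    intro h
    have := congrArg Fin.val h
    simp at this
    have := j.2
    have := NeZero.pos k
    omega
  simp [this]

theorem isBody_Tube [NeZero k] (h0 : 0 < ε) : IsBody (Tube k m ε) := by
  refine ⟨isCompact_Tube h0, pt 1, ?_⟩
  have h1 : IsOpen {z : EuclideanSpace ℝ (Fin (k + m)) | ff ε z < 0} :=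
    isOpen_lt continuous_ff continuous_const
  have h2 : {z : EuclideanSpace ℝ (Fin (k + m)) | ff ε z < 0} ⊆ Tube k m ε := by
    intro z hz
    have hz' : ff ε z < 0 := hz
    exact mem_Tube_iff.2 hz'.le
  apply interior_maximal h2 h1
  simp only [Set.mem_ofPred_eq, ff, gx_pt, gy_pt]
  norm_num
  positivity

theorem not_isEllipsoid_Tube [NeZero k] (h0 : 0 < ε) (h1' : ε < 1) :
    ¬ IsEllipsoid (Tube k m ε) := by
  rintro ⟨g, hg⟩
  have hconv : Convex ℝ (Tube k m ε) := by
    rw [hg]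
    exact (convex_closedBall 0 1).affine_image g.toAffineMap
  have h1 : (pt 1 : EuclideanSpace ℝ (Fin (k + m))) ∈ Tube k m ε := by
    simp only [Tube, Set.mem_ofPred_eq, gx_pt, gy_pt]
    norm_num
    positivity
  have h2 : (pt (-1) : EuclideanSpace ℝ (Fin (k + m))) ∈ Tube k m ε := by
    simp only [Tube, Set.mem_ofPred_eq, gx_pt, gy_pt]
    norm_num
    positivity
  have h3 := hconv h1 h2 (a := 1 / 2) (b := 1 / 2) (by norm_num) (by norm_num) (by norm_num)
  have h4 : ((1 / 2 : ℝ) • pt 1 + (1 / 2 : ℝ) • pt (-1) : EuclideanSpace ℝ (Fin (k + m))) = pt 0 := by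
    ext i
    simp [pt]
    split_ifs <;> norm_num
  rw [h4] at h3
  simp only [Tube, Set.mem_ofPred_eq, gx_pt, gy_pt] at h3
  norm_num at h3
  rw [abs_of_pos h0] at h3
  linarith

/-- the outward direction at `z` -/
noncomputable def dir (z : EuclideanSpace ℝ (Fin (k + m))) : EuclideanSpace ℝ (Fin (k + m)) :=
  WithLp.toLp 2 (fun i => Fin.addCases (motive := fun _ => ℝ)
    (fun a => (√(gx z) - 1) / √(gx z) * z (Fin.castAdd m a)) (fun b => z (Fin.natAdd k b)) i)

theorem ff_dir {z : EuclideanSpace ℝ (Fin (k + m))} (hz : 0 < gx z) {t : ℝ}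
    (ht : 0 ≤ √(gx z) + t * (√(gx z) - 1)) :
    ff ε (z + t • dir z) = (1 + t) ^ 2 * ((√(gx z) - 1) ^ 2 + gy z) - ε ^ 2 := by
  have hr : 0 < √(gx z) := Real.sqrt_pos.mpr hz
  have e1 : gx (z + t • dir z) = (√(gx z) + t * (√(gx z) - 1)) ^ 2 := by
    have h1 : ∀ i : Fin k, (z + t • dir z) (Fin.castAdd m i) ^ 2 =
        (1 + t * ((√(gx z) - 1) / √(gx z))) ^ 2 * z (Fin.castAdd m i) ^ 2 := by
      intro i
      simp only [dir, PiLp.add_apply, PiLp.smul_apply, smul_eq_mul, Fin.addCases_left]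
      ring
    have h2 : gx (z + t • dir z) = ∑ i : Fin k, (z + t • dir z) (Fin.castAdd m i) ^ 2 := rfl
    rw [h2]
    simp_rw [h1]
    rw [← Finset.mul_sum]
    have h3 : ∑ i : Fin k, z (Fin.castAdd m i) ^ 2 = √(gx z) ^ 2 := by
      rw [Real.sq_sqrt hz.le]; rfl
    rw [h3]
    field_simp
  have e2 : gy (z + t • dir z) = (1 + t) ^ 2 * gy z := by
    have h1 : ∀ j : Fin m, (z + t • dir z) (Fin.natAdd k j) ^ 2 =
        (1 + t) ^ 2 * z (Fin.natAdd k j) ^ 2 := by
      intro j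
      simp only [dir, PiLp.add_apply, PiLp.smul_apply, smul_eq_mul, Fin.addCases_right]
      ring
    have h2 : gy (z + t • dir z) = ∑ j : Fin m, (z + t • dir z) (Fin.natAdd k j) ^ 2 := rfl
    rw [h2]
    simp_rw [h1]
    rw [← Finset.mul_sum]
    rfl
  unfold ff
  rw [e1, e2, Real.sqrt_sq ht]
  ring

theorem bounds_of_ff (h0 : 0 < ε) (h1 : ε < 1) {z : EuclideanSpace ℝ (Fin (k + m))}
    (hz : ff ε z ≤ 0) : 1 - ε ≤ √(gx z) :=
  (le_norm_of_mem h0 h1 (mem_Tube_iff.2 hz)).1

theorem gx_pos_of_ff (h0 : 0 < ε) (h1 : ε < 1) {z : EuclideanSpace ℝ (Fin (k + m))}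
    (hz : ff ε z ≤ 0) : 0 < gx z := by
  have h := bounds_of_ff h0 h1 hz
  exact Real.sqrt_pos.mp (by linarith)

theorem frontier_Tube (h0 : 0 < ε) (h1 : ε < 1) : frontier (Tube k m ε) = {z | ff ε z = 0} := by
  rw [Tube_eq]
  apply Set.Subset.antisymm
  · exact frontier_le_subset_eq continuous_ff continuous_const
  · intro z hz
    have hz0 : ff ε z = 0 := hz
    rw [frontier_eq_closure_inter_closure]
    refine ⟨subset_closure hz0.le, ?_⟩
    have hb := bounds_of_ff h0 h1 hz0.le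
    have hS : (√(gx z) - 1) ^ 2 + gy z = ε ^ 2 := by
      unfold ff at hz0; linarith
    have ht : Filter.Tendsto (fun t : ℝ => z + t • dir z) (nhdsWithin 0 (Set.Ioi 0)) (nhds z) := by
      have h1 : Continuous (fun t : ℝ => z + t • dir z) := by fun_prop
      have h2 := h1.tendsto 0
      simp only [zero_smul, add_zero] at h2
      exact h2.mono_left nhdsWithin_le_nhds
    refine mem_closure_of_tendsto ht ?_
    filter_upwards [Ioo_mem_nhdsGT (show (0 : ℝ) < 1 - ε by linarith)] with t ht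
    simp only [Set.mem_compl_iff, Set.mem_ofPred_eq, not_le]
    rw [ff_dir (gx_pos_of_ff h0 h1 hz0.le) (by nlinarith [ht.1, ht.2]), hS]
    have h7 : 0 < ε ^ 2 := by positivity
    nlinarith [mul_pos h7 ht.1, mul_pos h7 (pow_pos ht.1 2)]

theorem contDiff_gx : ContDiff ℝ (⊤ : ℕ∞) (gx : EuclideanSpace ℝ (Fin (k + m)) → ℝ) := by
  unfold gx
  fun_prop

theorem contDiff_gy : ContDiff ℝ (⊤ : ℕ∞) (gy : EuclideanSpace ℝ (Fin (k + m)) → ℝ) := by
  unfold gy
  fun_prop

theorem hasSmoothBoundary_Tube (h0' : 0 < ε) (h1' : ε < 1) :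
    HasSmoothBoundary (Tube k m ε) := by
  intro p hp
  rw [frontier_Tube h0' h1'] at hp
  have hp0 : ff ε p = 0 := hp
  let U : Set (EuclideanSpace ℝ (Fin (k + m))) := {z | 0 < gx z} ∩ {z | 0 < (√(gx z) - 1) ^ 2 + gy z}
  have hU : IsOpen U := by
    have h1 := continuous_gx (k := k) (m := m)
    have h2 := continuous_gy (k := k) (m := m)
    exact (isOpen_lt continuous_const h1).inter (isOpen_lt continuous_const (by fun_prop))
  have hcd : ContDiffOn ℝ (⊤ : ℕ∞) (ff ε : EuclideanSpace ℝ (Fin (k + m)) → ℝ) U := by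
    have h1 : ContDiffOn ℝ (⊤ : ℕ∞) (fun z : EuclideanSpace ℝ (Fin (k + m)) => √(gx z)) U :=
      ContDiffOn.sqrt contDiff_gx.contDiffOn (fun x hx => hx.1.ne')
    exact (((h1.sub contDiffOn_const).pow 2).add contDiff_gy.contDiffOn).sub contDiffOn_const
  refine ⟨U, hU, ⟨gx_pos_of_ff h0' h1' hp0.le, ?_⟩, ff ε, hcd, ?_, ?_, ?_⟩
  · unfold ff at hp0
    simp only [Set.mem_ofPred_eq]
    have : 0 < ε ^ 2 := by positivity
    linarith
  · intro x hx h0
    have hr : 0 < √(gx x) := Real.sqrt_pos.mpr hx.1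
    have hd : DifferentiableAt ℝ (ff ε : EuclideanSpace ℝ (Fin (k + m)) → ℝ) x :=
      (hcd.contDiffAt (hU.mem_nhds hx)).differentiableAt (by simp)
    have h1 : HasDerivAt (fun t : ℝ => ff ε (x + t • dir x)) 0 0 := by
      have h2 : HasDerivAt (fun t : ℝ => x + t • dir x) (dir x) 0 := by
        simpa using ((hasDerivAt_id (0 : ℝ)).smul_const (dir x)).const_add x
      have h3 : HasFDerivAt (ff ε : EuclideanSpace ℝ (Fin (k + m)) → ℝ) (fderiv ℝ (ff ε) x)
          (x + (0 : ℝ) • dir x) := by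
        simpa using hd.hasFDerivAt
      rw [h0] at h3
      have h4 := h3.comp_hasDerivAt (0 : ℝ) h2
      exact h4
    have h5 : HasDerivAt (fun t : ℝ => (1 + t) ^ 2 * ((√(gx x) - 1) ^ 2 + gy x) - ε ^ 2)
        (2 * ((√(gx x) - 1) ^ 2 + gy x)) 0 := by
      have h6 : HasDerivAt (fun t : ℝ => (1 + t) ^ 2) 2 0 := by
        have := ((hasDerivAt_id' (0 : ℝ)).const_add 1).fun_pow 2
        simpa using this
      exact (h6.mul_const _).sub_const _
    have h7 : (fun t : ℝ => ff ε (x + t • dir x)) =ᶠ[nhds 0]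
        (fun t : ℝ => (1 + t) ^ 2 * ((√(gx x) - 1) ^ 2 + gy x) - ε ^ 2) := by
      have h8 : Continuous (fun t : ℝ => √(gx x) + t * (√(gx x) - 1)) := by fun_prop
      have h9 : ∀ᶠ t in nhds (0 : ℝ), 0 < √(gx x) + t * (√(gx x) - 1) :=
        (h8.tendsto 0).eventually_const_lt (by simpa using hr)
      filter_upwards [h9] with t ht
      exact ff_dir hx.1 ht.le
    have h10 := (h5.congr_of_eventuallyEq h7).unique h1
    have h11 := hx.2
    simp only [Set.mem_ofPred_eq] at h11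
    linarith
  · intro x _
    exact mem_Tube_iff
  · intro x _
    rw [frontier_Tube h0' h1']
    rfl

/-- parametrization of the boundary -/
noncomputable def par (q : EuclideanSpace ℝ (Fin k) × WithLp 2 (ℝ × EuclideanSpace ℝ (Fin m))) :
    EuclideanSpace ℝ (Fin (k + m)) :=
  WithLp.toLp 2 (fun i => Fin.addCases (motive := fun _ => ℝ)
    (fun a => (1 + q.2.fst) * q.1 a) (fun b => q.2.snd b) i)

theorem continuous_par : Continuous (par (k := k) (m := m)) := by
  unfold par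
  refine (PiLp.continuous_toLp 2 _).comp ?_
  refine continuous_pi fun i => ?_
  refine Fin.addCases (fun a => ?_) (fun b => ?_) i
  · simp only [Fin.addCases_left]
    fun_prop
  · simp only [Fin.addCases_right]
    fun_prop

theorem isConnected_frontier_Tube (h0 : 0 < ε) (h1' : ε < 1) (hk : 2 ≤ k) (hm : 1 ≤ m) :
    IsConnected (frontier (Tube k m ε)) := by
  rw [frontier_Tube h0 h1']
  have h1 : IsConnected (Metric.sphere (0 : EuclideanSpace ℝ (Fin k)) 1) := by
    apply isConnected_sphere _ _ zero_le_one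
    rw [← Module.finrank_eq_rank, finrank_euclideanSpace_fin]
    exact_mod_cast (by omega : 1 < k)
  have h2 : IsConnected (Metric.sphere (0 : WithLp 2 (ℝ × EuclideanSpace ℝ (Fin m))) ε) := by
    apply isConnected_sphere _ _ h0.le
    rw [← Module.finrank_eq_rank, Pool.Agent.Helper99.finrank_EE m]
    exact_mod_cast (by omega : 1 < m + 1)
  have h3 : {z : EuclideanSpace ℝ (Fin (k + m)) | ff ε z = 0} =
      par '' ((Metric.sphere (0 : EuclideanSpace ℝ (Fin k)) 1) ×ˢ
        (Metric.sphere (0 : WithLp 2 (ℝ × EuclideanSpace ℝ (Fin m))) ε)) := by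
    apply Set.Subset.antisymm
    · intro z hz
      have hz0 : ff ε z = 0 := hz
      have hr : 0 < √(gx z) := Real.sqrt_pos.mpr (gx_pos_of_ff h0 h1' hz0.le)
      have hr2 : √(gx z) ^ 2 = gx z := Real.sq_sqrt (gx_nonneg z)
      refine ⟨(WithLp.toLp 2 (fun a => z (Fin.castAdd m a) / √(gx z)),
        WithLp.toLp 2 (√(gx z) - 1, WithLp.toLp 2 (fun b => z (Fin.natAdd k b)))), ⟨?_, ?_⟩, ?_⟩
      · simp only [mem_sphere_zero_iff_norm]
        rw [← sq_eq_sq₀ (norm_nonneg _) zero_le_one, EuclideanSpace.norm_sq_eq]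
        simp only [Real.norm_eq_abs, sq_abs, div_pow]
        rw [← Finset.sum_div, hr2]
        have : ∑ i : Fin k, z (Fin.castAdd m i) ^ 2 = gx z := rfl
        rw [this, div_self (gx_pos_of_ff h0 h1' hz0.le).ne']
        norm_num
      · simp only [mem_sphere_zero_iff_norm]
        rw [← sq_eq_sq₀ (norm_nonneg _) h0.le, WithLp.prod_norm_sq_eq_of_L2,
          EuclideanSpace.norm_sq_eq]
        simp only [Real.norm_eq_abs, sq_abs]
        have h5 : (√(gx z) - 1) ^ 2 + gy z = ε ^ 2 := by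
          unfold ff at hz0
          linarith
        exact h5
      · ext i
        refine Fin.addCases (fun a => ?_) (fun b => ?_) i
        · simp only [par, Fin.addCases_left]
          show (1 + (√(gx z) - 1)) * (z (Fin.castAdd m a) / √(gx z)) = z (Fin.castAdd m a)
          field_simp
          ring
        · simp only [par, Fin.addCases_right]
          rfl
    · rintro _ ⟨⟨ω, q⟩, ⟨h4, h5⟩, rfl⟩
      simp only [mem_sphere_zero_iff_norm] at h4 h5
      have h6 : ∑ i, ω i ^ 2 = 1 := by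
        have := EuclideanSpace.norm_sq_eq ω
        rw [h4] at this
        simpa using this.symm
      have h7 : q.fst ^ 2 + ∑ j, q.snd j ^ 2 = ε ^ 2 := by
        have := WithLp.prod_norm_sq_eq_of_L2 q
        rw [h5, EuclideanSpace.norm_sq_eq] at this
        simpa using this.symm
      have h8 : 0 ≤ ∑ j, q.snd j ^ 2 := Finset.sum_nonneg fun _ _ => sq_nonneg _
      have h9 : 0 ≤ 1 + q.fst := by
        have := abs_le.1 (abs_le_of_sq_le_sq (show q.fst ^ 2 ≤ ε ^ 2 by linarith) h0.le)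
        linarith [this.1]
      have e1 : gx (par (ω, q)) = (1 + q.fst) ^ 2 := by
        unfold gx par
        simp only [Fin.addCases_left, mul_pow]
        rw [← Finset.mul_sum, h6, mul_one]
      have e2 : gy (par (ω, q)) = ∑ j, q.snd j ^ 2 := by
        unfold gy par
        simp only [Fin.addCases_right]
      simp only [Set.mem_ofPred_eq]
      unfold ff
      rw [e1, e2, Real.sqrt_sq h9]
      linarith
  rw [h3]
  exact (h1.prod h2).image _ continuous_par.continuousOn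

/-- volume preserving coordinates -/
noncomputable def Θ (k m : ℕ) : (Fin k → ℝ) × (Fin m → ℝ) ≃ᵐ EuclideanSpace ℝ (Fin (k + m)) :=
  (MeasurableEquiv.sumPiEquivProdPi (fun _ : Fin k ⊕ Fin m => ℝ)).symm.trans
    ((MeasurableEquiv.piCongrLeft (fun _ : Fin (k + m) => ℝ) finSumFinEquiv).trans
      (MeasurableEquiv.toLp 2 (Fin (k + m) → ℝ)))

theorem Θ_mp : MeasurePreserving (Θ k m) volume volume := by
  unfold Θ
  refine MeasurePreserving.trans (μb := volume) ?_ (MeasurePreserving.trans (μb := volume) ?_ ?_)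
  · exact volume_measurePreserving_sumPiEquivProdPi_symm _
  · exact volume_measurePreserving_piCongrLeft _ _
  · exact PiLp.volume_preserving_toLp _

theorem Θ_left (p : (Fin k → ℝ) × (Fin m → ℝ)) (i : Fin k) : (Θ k m p) (Fin.castAdd m i) = p.1 i := by
  have : Fin.castAdd m i = finSumFinEquiv (Sum.inl i) := rfl
  rw [this]
  simp only [Θ, MeasurableEquiv.trans_apply, MeasurableEquiv.coe_toLp]
  exact Equiv.piCongrLeft_apply_apply (fun _ : Fin (k + m) => ℝ) finSumFinEquiv _ (Sum.inl i)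

theorem Θ_right (p : (Fin k → ℝ) × (Fin m → ℝ)) (j : Fin m) : (Θ k m p) (Fin.natAdd k j) = p.2 j := by
  have : Fin.natAdd k j = finSumFinEquiv (Sum.inr j) := rfl
  rw [this]
  simp only [Θ, MeasurableEquiv.trans_apply, MeasurableEquiv.coe_toLp]
  exact Equiv.piCongrLeft_apply_apply (fun _ : Fin (k + m) => ℝ) finSumFinEquiv _ (Sum.inr j)

theorem cutPlus_eq (h0 : 0 < ε) (ξ : EuclideanSpace ℝ (Fin (k + m))) (t : ℝ) :
    cutPlus (Tube k m ε) ξ t = (volume {p : (Fin k → ℝ) × (Fin m → ℝ) |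
        (√(∑ i, p.1 i ^ 2) - 1) ^ 2 + ∑ j, p.2 j ^ 2 ≤ ε ^ 2 ∧
        ∑ i, ξ (Fin.castAdd m i) * p.1 i + ∑ j, ξ (Fin.natAdd k j) * p.2 j ≤ t}).toReal := by
  unfold cutPlus
  congr 1
  have hm : MeasurableSet (Tube k m ε ∩ {x | inner ℝ x ξ ≤ t}) := by
    refine ((isCompact_Tube h0).measurableSet).inter ?_
    exact (isClosed_le (by fun_prop) continuous_const).measurableSet
  rw [← Θ_mp.measure_preimage hm.nullMeasurableSet]
  congr 1
  ext p
  simp only [Set.mem_preimage, Set.mem_inter_iff, Set.mem_ofPred_eq, mem_Tube_iff]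
  have e1 : ff ε (Θ k m p) = (√(∑ i, p.1 i ^ 2) - 1) ^ 2 + ∑ j, p.2 j ^ 2 - ε ^ 2 := by
    unfold ff gx gy
    simp only [Θ_left, Θ_right]
  have e2 : inner ℝ (Θ k m p) ξ =
      ∑ i, ξ (Fin.castAdd m i) * p.1 i + ∑ j, ξ (Fin.natAdd k j) * p.2 j := by
    rw [PiLp.inner_apply, Fin.sum_univ_add]
    simp only [RCLike.inner_apply, conj_trivial, Θ_left, Θ_right]
  rw [e1, e2]
  constructor
  · rintro ⟨h1, h2⟩; exact ⟨by linarith, h2⟩
  · rintro ⟨h1, h2⟩; exact ⟨by linarith, h2⟩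

end construction

end Pool.Agent.Y106.TB
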